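import Pool.Agent.helper10.TY.Spec

/-!
# Row ty:HCT
-/

set_option autoImplicit false

namespace Pool.Agent.TY

open Matrix Polynomial Pool.Agent.GO Pool.Agent.AR Pool.Agent.RG MeasureTheory

/-- evaluation at a point, as a ring homomorphism -/
def HCT_ev {Γ F : Type*} [TopologicalSpace Γ] [Field F] [TopologicalSpace F] [IsTopologicalRing F] (u : Γ) :
    C(Γ, F) →+* F :=
  (Pi.evalRingHom (fun _ : Γ => F) u).comp ContinuousMap.coeFnRingHom

theorem HCT : HCT_stmt := by
  intro Γ F _ _ _ _ _ _ s n V hV G y hy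
  have hc : ∀ a b, Continuous fun u => dirSum V u a b := fun a b =>
    (dirSum_continuous V hV).matrix_elem a b
  let M : Matrix (Σ i, Fin (n i)) (Σ i, Fin (n i)) C(Γ, F) := Matrix.of fun a b => ⟨fun u => dirSum V u a b, hc a b⟩
  have hM : ∀ u, M.map (HCT_ev u) = dirSum V u := fun u => rfl
  let f : MvPolynomial ℕ ℤ →+* C(Γ, F) := MvPolynomial.eval₂Hom (Int.castRingHom C(Γ, F)) fun k => M.charpoly.coeff k
  have hf : ∀ u, (HCT_ev u).comp f = MvPolynomial.eval₂Hom (Int.castRingHom F)
      fun k => (dirSum V u).charpoly.coeff k := by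
    intro u
    refine MvPolynomial.ringHom_ext' (RingHom.ext_int _ _) fun k => ?_
    rw [RingHom.comp_apply, MvPolynomial.eval₂Hom_X', MvPolynomial.eval₂Hom_X', ← hM u, Matrix.charpoly_map,
      Polynomial.coeff_map]
  let T : C(Γ, F) := (G.map f).eval ⟨y, hy⟩
  have hT : (fun u => (G.map (MvPolynomial.eval₂Hom (Int.castRingHom F)
      fun k => (dirSum V u).charpoly.coeff k)).eval (y u)) = T := by
    funext u
    rw [← hf u, ← Polynomial.map_map]
    have h1 : HCT_ev u ((G.map f).eval ⟨y, hy⟩) = ((G.map f).map (HCT_ev u)).eval (HCT_ev u ⟨y, hy⟩) := by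
      rw [Polynomial.eval_map, Polynomial.hom_eval₂, Polynomial.eval_map, Polynomial.eval₂_map]
    exact h1.symm
  rw [hT]
  exact T.continuous

end Pool.Agent.TY
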